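import Mathlib
import Pool.Agent.R81.Sid.Bound

/-!
# Linear bounds on Sidorenko exponents of bounded-degree hypergraphs: yes

Outline. Let `H` be an `r`-graph with edge density `p = t_K(H) > 0` and let `(h_1, ..., h_r)` be a
uniformly random ordered edge of `H`. The hidden vertices `h_j` are replaced by the vertices of the
`r`-partite `r`-graph `F` part by part: every vertex `v` of the part `j` becomes a conditionally
independent copy of `h_j`, given `h_(j+1), ..., h_r` and the chosen images of those neighbours of `v`
which are in the parts `1, ..., j - 1`. At every time, every edge of `F` with its missing vertices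
replaced by the hidden ones is an edge of `H`; at the end we have a random homomorphism `F → H`. The
law of a set `S` of chosen vertices and of the hidden vertices depends only on the chosen
neighbours, neighbours of neighbours, etc. Hence its entropy deficit (relative to the uniform
distribution) is at most `(1 + ∑_(v in S) β(j(v))) log (1/p)` with `β(j) = (2 r Δ + 1)^j`, by
induction. So there are at least `p^B v(H)^v(F)` homomorphisms, `B = 1 + ∑_v β(j(v))`, where isolated
vertices do not contribute.
-/

set_option autoImplicit false

namespace Pool.Agent.Results.MP_30cdc8_co.LinearBound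

open Finset Pool.Agent.R81.Sid

/-- For every `r ≥ 2` there is a function `f` (explicitly `f Δ = 1 + r (2 r Δ + 1)^r`) such that
`s(F) ≤ f(Δ) e(F)` for every finite `r`-graph `F` which is `r`-partite (there is a map `c` from the
vertices to `Fin r` such that every edge meets every class in exactly one vertex) and has maximum
degree at most `Δ`. -/
theorem result : ∀ r : ℕ, 2 ≤ r → ∃ f : ℕ → ℕ, (∀ Δ, f Δ = 1 + r * (2 * (r * Δ) + 1) ^ r) ∧
    ∀ (W : Type) [Fintype W] [DecidableEq W] (F : Finset (Finset W)) (Δ : ℕ),
      (∀ e ∈ F, e.card = r) →
      (∃ c : W → Fin r, ∀ e ∈ F, ∀ k, (e.filter fun w => c w = k).card = 1) →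
      (∀ w, (F.filter fun e => w ∈ e).card ≤ Δ) →
      sidorenkoExponent r F ≤ ((f Δ * F.card : ℕ) : EReal) := by
  intro r hr
  refine ⟨fun Δ => 1 + r * (2 * (r * Δ) + 1) ^ r, fun _ => rfl, ?_⟩
  intro W _ _ F Δ hF hc hΔ
  exact sidorenkoExponent_le hr F hF hc Δ hΔ

end Pool.Agent.Results.MP_30cdc8_co.LinearBound
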